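import Pool.Agent.H32.Z12.M2Defs
import Pool.Agent.H28.Z12.ZTreeDefs

/-!
Kernel checker for many small refutations, general form (MP_1e71f9_co): the false literals of
piece `j` are an arbitrary function `F j`.
-/

set_option autoImplicit false
set_option maxRecDepth 10000

namespace Pool.Agent.H32.Z12

open Pool.Agent.H13.Z12.B2 (ou)
open Pool.Agent.H28.Z12.Cov (ngM ngV zv)

/-- The masks of the signs `E29`, 12 bits each. -/
noncomputable def Z29 : Nat := nat_lit 0xc3ca3c93c8bc87c87687587386785e85d85b84f63c53c4bc47c33c2bc27c1bc17c0fc85786b86d86e87987a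

/-- The values of the signs `E29`. -/
noncomputable def V29 : Nat := nat_lit 0x1fffffc0

/-- Entry `j` of a table of 32 bits for each entry. -/
noncomputable def eT (EM j : Nat) : Nat :=
  Nat.land (Nat.shiftRight EM (Nat.mul (nat_lit 32) j)) (nat_lit 4294967295)

/-- The false literal of the further sign `i`. -/
noncomputable def zLit (Z zm zw i : Nat) : Nat :=
  Nat.shiftLeft (Nat.land (Nat.shiftRight zm i) (nat_lit 1))
    (Nat.add (zv Z i) (Nat.mul (nat_lit 4096) (Nat.land (Nat.shiftRight zw i) (nat_lit 1))))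

/-- The false literals of the values `zw` of the further signs `zm` and of the mask `C`. -/
noncomputable def uZ (C Z zm zw : Nat) : Nat :=
  @Nat.rec (fun _ => Nat) C (fun i ih => Nat.lor ih (zLit Z zm zw i)) (nat_lit 37)

/-- Evaluate the argument first. -/
noncomputable def frc (f : Nat → Nat) (x : Nat) : Nat :=
  @Nat.rec (fun _ => Nat) (nat_lit 0) (fun n _ => f n) (Nat.succ x)

/-- Patterns: the false literals of piece `j`. -/
noncomputable def fP (C P j : Nat) : Nat := frc (fun m => frc (uU C m) (ngV P j)) (ngM P j)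

/-- Patterns with a mask of the signs `E29` for each piece. -/
noncomputable def fE (C P EM j : Nat) : Nat :=
  frc (fun e => frc (fun m => frc (uU (uZ C Z29 e V29) m) (ngV P j)) (ngM P j)) (eT EM j)

/-- Values of further signs. -/
noncomputable def fZ (C Z P j : Nat) : Nat := frc (fun m => frc (uZ C Z m) (ngV P j)) (ngM P j)

/-- Piece with the false literals `U` and the lemmas `a, …, b - 1`. -/
noncomputable def pieceF (R Y LM LR : Nat → Nat) (U a b : Nat) : Bool :=
  bnd (Nat.ble b (nat_lit 16384)) (bnd (Nat.ble (Nat.succ a) b) (bnd (Nat.beq (LM a) (nat_lit 0))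
    (outerA R Y LM LR a (Nat.sub b a) U)))

noncomputable def fA (R Y LM LR : Nat → Nat) (U b a : Nat) (_ : Bool) : Bool := pieceF R Y LM LR U a b

noncomputable def fB (R Y LM LR : Nat → Nat) (U A j b : Nat) (_ : Bool) : Bool :=
  @Nat.rec (fun _ => Bool) false (fA R Y LM LR U b) (Nat.succ (aT A j))

/-- Piece `j`. -/
noncomputable def fJ (R Y LM LR F : Nat → Nat) (Q j : Nat) : Bool :=
  @Nat.rec (fun _ => Bool) false (fB R Y LM LR (F j) Q j) (Nat.succ (aT Q (Nat.succ j)))

noncomputable def mulF1 (R Y LM LR F : Nat → Nat) (Q j : Nat) (ih : Bool) : Bool :=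
  bnd (fJ R Y LM LR F Q j) ih

/-- Pieces `n - 1, …, 0`. -/
noncomputable def multiF (R Y LM LR F : Nat → Nat) (Q n : Nat) : Bool :=
  @Nat.rec (fun _ => Bool) true (mulF1 R Y LM LR F Q) n

noncomputable def det1 (P j : Nat) (ih : Bool) : Bool :=
  bnd (Nat.beq (Nat.land (Nat.shiftRight (ngM P j) (nat_lit 36)) (nat_lit 1)) (nat_lit 1)) ih

/-- Bit 36 of the masks of all entries is set. -/
noncomputable def det36 (P n : Nat) : Bool := @Nat.rec (fun _ => Bool) true (det1 P) n

end Pool.Agent.H32.Z12
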