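import Pool.Agent.H13.Z12.Defs2
import Pool.Agent.H28.Z12.CoverDefs

/-!
Kernel checker for many small refutations which share the tables of one block (MP_1e71f9_co).

Piece `j` of a block: the pattern `(ngM G j, ngV G j)` of the table `G` (80 bits for each entry) and
the lemmas `a, …, b - 1` where `a`, `b` are the entries `j`, `j + 1` of the table `A` (16 bits for
each entry); lemma `a` is the empty clause, the lemmas are checked in descending order.
-/

set_option autoImplicit false
set_option maxRecDepth 10000

namespace Pool.Agent.H32.Z12

open Pool.Agent.H13.Z12.B2 (ou)
open Pool.Agent.H28.Z12.Cov (ngM ngV)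

/-- The signs of the sorted frame. -/
def E29 : List (Nat × Bool) :=
  [(2170, false), (2169, false), (2158, false), (2157, false), (2155, false), (2135, false),
   (252, true), (380, true), (444, true), (636, true), (700, true), (828, true), (1148, true),
   (1212, true), (1340, true), (1596, true), (2127, true), (2139, true), (2141, true),
   (2142, true), (2151, true), (2163, true), (2165, true), (2166, true), (2172, true),
   (2236, true), (2364, true), (2620, true), (3132, true)]

/-- The false literals of the chart and of the sorted frame. -/
noncomputable def CU : Nat := nat_lit 0x1000000000000000000000000000000000000000000000000000000000000000000000000000000000000000000000000000000000000000000000000000000010000000000000000000000000000000000000000000000000000000000000001000000000000000000000000000000010000000000000001068008068008000208000008000000000000000000000000000000000000000000000000000000000000000000000000000000000000000000000000000000000000000000000001000000000000000000000000000000000000000000000000000000000000000100000000000000000000000000000001000000000000000100000000000000020800000800000000000000000000000000000000000000000000000000000001000000000000000000000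0000000000100000000000000010000000000000002080000080000000000000000000000010000000000000001000000000000000208000008000000010000000000000002080000080000000208000008000000080000000000000000000000000000000000000000000000000000000000000000000000000000000000000000000000000000000000000000000000000000000000000000000000000000000000000000000000000000000000000000000000000000000000000000000000000000000000000000000000000000000000000000000000000000000000000000000000000000000000000000000000000000000000000000000000000000000000000000000000000000000000000000000000000000000000000000000000000000000000000000000000000000000000000000000000000000000000000000000000000000000000000000600680000800000480080000000000000000000000000000000000000000000000000000000000000000000000000000000000000000000000000000000000000000000000000000000000000000000000000000000000000000000000000000000000000000000000000000000000000000000000000000000000000000000000000000000000048008000000000000000000000000000000000000000000000000000000000000000000000000000000000000000000000000000000000000000000000000000480080000000000000000000000000000000000000000000000000000000000048008000000000000000000000000000480080000000000048008000000000000000000000000000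

/-- Masks of the signs of the 36 entries, 12 bits each. -/
noncomputable def posT : Nat := nat_lit 0x7e07d07c87c47c27c1be0bd0bc8bc4bc2bc1de0dd0dc8dc4dc2dc1ee0ed0ec8ec4ec2ec1f60f50f48f44f42f41fa0f90f88f84f82f81

/-- Signs of the 36 entries. -/
noncomputable def sgnT : Nat := nat_lit 0x3f03f03f

/-- The false literal of entry `i` of the pattern, zero if the entry is free. -/
noncomputable def uL (m w i : Nat) : Nat :=
  Nat.shiftLeft (Nat.land (Nat.shiftRight m i) (nat_lit 1))
    (Nat.add (Nat.land (Nat.shiftRight posT (Nat.mul (nat_lit 12) i)) (nat_lit 4095))
      (Nat.mul (nat_lit 4096) (Nat.land (Nat.xor (Nat.xor (Nat.shiftRight w i) (Nat.shiftRight w (nat_lit 36)))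
        (Nat.shiftRight sgnT i)) (nat_lit 1))))

/-- The false literal of the determinant. -/
noncomputable def uD (w : Nat) : Nat :=
  Nat.shiftLeft (nat_lit 1) (Nat.add (nat_lit 4032) (Nat.mul (nat_lit 4096)
    (Nat.land (Nat.shiftRight w (nat_lit 36)) (nat_lit 1))))

/-- The false literals of the pattern and of the mask `C`. -/
noncomputable def uU (C m w : Nat) : Nat :=
  @Nat.rec (fun _ => Nat) (Nat.lor C (uD w)) (fun i ih => Nat.lor ih (uL m w i)) (nat_lit 36)

/-- Entry `j` of the table of first lemmas. -/
noncomputable def aT (A j : Nat) : Nat := Nat.land (Nat.shiftRight A (Nat.mul (nat_lit 16) j)) (nat_lit 65535)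

noncomputable def ouN (R Y LM LR : Nat → Nat) (ih : Nat → Bool) (U n : Nat) (_ : Bool) : Bool := ou R Y LM LR n ih U

noncomputable def ouA (R Y LM LR : Nat → Nat) (a k : Nat) (ih : Nat → Bool) (U : Nat) : Bool :=
  @Nat.rec (fun _ => Bool) false (ouN R Y LM LR ih U) (Nat.succ (Nat.add a k))

noncomputable def yes (_ : Nat) : Bool := true

/-- Lemmas `a + fuel - 1, …, a`. -/
noncomputable def outerA (R Y LM LR : Nat → Nat) (a fuel : Nat) : Nat → Bool :=
  @Nat.rec (fun _ => Nat → Bool) yes (ouA R Y LM LR a) fuel

/-- `b` if `a` is true, `a` is evaluated first. -/
noncomputable def bnd (a b : Bool) : Bool := @Bool.rec (fun _ => Bool) false b a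

/-- Piece with the pattern `m`, `w` and the lemmas `a, …, b - 1`. -/
noncomputable def piece1 (R Y LM LR : Nat → Nat) (C m w a b : Nat) : Bool :=
  bnd (Nat.beq (Nat.land (Nat.shiftRight m (nat_lit 36)) (nat_lit 1)) (nat_lit 1))
    (bnd (Nat.ble b (nat_lit 16384)) (bnd (Nat.ble (Nat.succ a) b) (bnd (Nat.beq (LM a) (nat_lit 0))
      (outerA R Y LM LR a (Nat.sub b a) (uU C m w)))))

noncomputable def pM (R Y LM LR : Nat → Nat) (C w a b m : Nat) (_ : Bool) : Bool := piece1 R Y LM LR C m w a b

noncomputable def pW (R Y LM LR : Nat → Nat) (C m a b w : Nat) (_ : Bool) : Bool :=
  @Nat.rec (fun _ => Bool) false (pM R Y LM LR C w a b) (Nat.succ m)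

noncomputable def pA (R Y LM LR : Nat → Nat) (C m w b a : Nat) (_ : Bool) : Bool :=
  @Nat.rec (fun _ => Bool) false (pW R Y LM LR C m a b) (Nat.succ w)

noncomputable def pB (R Y LM LR : Nat → Nat) (C m w a b : Nat) (_ : Bool) : Bool :=
  @Nat.rec (fun _ => Bool) false (pA R Y LM LR C m w b) (Nat.succ a)

/-- Piece `j`; all four numbers are evaluated first. -/
noncomputable def pieceJ (R Y LM LR : Nat → Nat) (C G A j : Nat) : Bool :=
  @Nat.rec (fun _ => Bool) false (pB R Y LM LR C (ngM G j) (ngV G j) (aT A j)) (Nat.succ (aT A (Nat.succ j)))

noncomputable def mul1 (R Y LM LR : Nat → Nat) (C G A j : Nat) (ih : Bool) : Bool := bnd (pieceJ R Y LM LR C G A j) ih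

/-- Pieces `n - 1, …, 0`. -/
noncomputable def multi (R Y LM LR : Nat → Nat) (C G A n : Nat) : Bool :=
  @Nat.rec (fun _ => Bool) true (mul1 R Y LM LR C G A) n

end Pool.Agent.H32.Z12
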