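import Mathlib
import Pool.Agent.H13.Z12.Glue2
import Pool.Agent.H32.Z12.MDefs

/-!
Soundness of the checker for many small refutations (MP_1e71f9_co).
-/

set_option autoImplicit false

namespace Pool.Agent.H32.Z12

open Pool.Agent.H77.Z12 Pool.Agent.H64.Z12 Pool.Agent.H13.Z12 Pool.Agent.H13.Z12.B2 Pool.Agent.H28.Z12
  Pool.Agent.H28.Z12.Cov

variable {χ T : ℕ → Bool}

/-- The outer loop with an offset. -/
theorem outerA_sound {R Y LM LR : ℕ → ℕ}
    (hE : EV χ T (fun j => Cl χ T (LM j)) R Y) (hLM : ∀ j, Lo (LM j)) (a fuel : ℕ) :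
    a + fuel ≤ 16384 → ∀ U, FA χ T (fun j => Cl χ T (LM j)) U →
      outerA R Y LM LR a fuel U = true → ∀ j < fuel, Cl χ T (LM (a + j)) := by
  induction fuel with
  | zero =>
    intro _ U _ _ j hj
    exact absurd hj (Nat.not_lt_zero j)
  | succ k ih =>
    intro hn U hU h
    have h1 : ou R Y LM LR (a + k) (outerA R Y LM LR a k) U = true := h
    set n := a + k with hn'
    set r := Nat.shiftRight (LR n) (Nat.add (nat_lit 8) (Nat.mul (nat_lit 56)
      (Nat.land (LR n) (nat_lit 255)))) with hr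
    set S := rl R Y (Nat.land r (nat_lit 255)) (Nat.mod (Nat.shiftRight r (nat_lit 22))
      (Nat.pow (nat_lit 2) (Nat.mul (nat_lit 60) (Nat.land r (nat_lit 255)))))
      (Nat.mul m1 (Nat.shiftLeft (nat_lit 1)
        (Nat.land (Nat.shiftRight r (nat_lit 8)) (nat_lit 12287)))) with hS
    have h' : (@Nat.rec (fun _ => Bool) (outerA R Y LM LR a k (Nat.lor (Nat.lor U (Pool.Agent.H13.Z12.B2.addU (LM n)))
        (Nat.shiftLeft (nat_lit 1) (Nat.add (nat_lit 16384) n)))) Pool.Agent.H13.Z12.B2.cf
        (Nat.xor (Nat.lor S (Nat.lor (LM n) U)) (Nat.lor (LM n) U)) : Bool) = true := h1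
    rcases hx : Nat.xor (Nat.lor S (Nat.lor (LM n) U)) (Nat.lor (LM n) U) with _ | w
    · rw [hx] at h'
      have h2 : outerA R Y LM LR a k (Nat.lor (Nat.lor U (Pool.Agent.H13.Z12.B2.addU (LM n)))
        (Nat.shiftLeft (nat_lit 1) (Nat.add (nat_lit 16384) n))) = true := h'
      have hcl : Cl χ T (LM n) := by
        rcases Cl_or_Fa χ T (LM n) with hc | hf
        · exact hc
        · exfalso
          have hA : FA χ T (fun j => Cl χ T (LM j)) (Nat.lor (LM n) U) :=
            FA_or (FA_of_Fa hf (hLM n)) hU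
          have hSA : FA χ T (fun j => Cl χ T (LM j)) S := by
            intro i hi
            refine hA i ?_
            by_contra hc
            rw [Bool.not_eq_true] at hc
            have h3 : (Nat.xor (Nat.lor S (Nat.lor (LM n) U)) (Nat.lor (LM n) U)).testBit i =
                true := by
              change ((S ||| Nat.lor (LM n) U) ^^^ Nat.lor (LM n) U).testBit i = true
              rw [Nat.testBit_xor, Nat.testBit_or, hi, hc]
              rfl
            rw [hx] at h3
            simp at h3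
          rw [hS] at hSA
          exact start_false (rl_sound hE _ _ _ hSA)
      have hU' : FA χ T (fun j => Cl χ T (LM j)) (Nat.lor (Nat.lor U (Pool.Agent.H13.Z12.B2.addU (LM n)))
          (Nat.shiftLeft (nat_lit 1) (Nat.add (nat_lit 16384) n))) := by
        refine FA_or (FA_or hU (FA_addU hcl)) (FA_one (Or.inr ⟨?_, ?_, ?_⟩))
        · exact Nat.le_add_right 16384 n
        · change 16384 + n < 32768
          omega
        · have e : 16384 + n - 16384 = n := by omega
          change Cl χ T (LM (16384 + n - 16384))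
          rw [e]
          exact hcl
      have h5 := ih (by omega) _ hU' h2
      intro j hj
      rcases Nat.lt_or_ge j k with h7 | h7
      · exact h5 j h7
      · have : j = k := by omega
        rw [this]
        exact hcl
    · rw [hx] at h'
      exact Bool.noConfusion h'

theorem bnd_true {a b : Bool} (h : bnd a b = true) : a = true ∧ b = true := by
  cases a
  · exact Bool.noConfusion h
  · exact ⟨rfl, h⟩

theorem posT_ok : ((List.range 36).all fun i =>
    Nat.beq (Nat.land (Nat.shiftRight posT (Nat.mul 12 i)) 4095) (mS (i / 6) ||| 2 ^ (i % 6))) =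
      true := by decide +kernel

theorem sgnT_ok : ((List.range 36).all fun i => sgnT.testBit i ==
    !(xor (ipm (mS (i / 6)) (i % 6)) (ipm (mS (i / 6)) (6 + i / 6)))) = true := by
  decide +kernel

theorem uL_eq {m w i : ℕ} (hi : i < 36) : uL m w i = uLit m w (i / 6) (i % 6) := by
  have hp := Nat.eq_of_beq_eq_true (range_all posT_ok i hi)
  have hs := eq_of_beq (range_all sgnT_ok i hi)
  have e6 : 6 * (i / 6) + i % 6 = i := Nat.div_add_mod i 6
  have h1 : uL m w i = Nat.shiftLeft (Nat.land (Nat.shiftRight m i) 1)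
      (Nat.add (Nat.land (Nat.shiftRight posT (Nat.mul 12 i)) 4095)
        (Nat.mul 4096 (Nat.land (Nat.xor (Nat.xor (Nat.shiftRight w i) (Nat.shiftRight w 36))
          (Nat.shiftRight sgnT i)) 1))) := rfl
  have h2 : Nat.land (Nat.xor (Nat.xor (Nat.shiftRight w i) (Nat.shiftRight w 36))
      (Nat.shiftRight sgnT i)) 1 = (xor (xor (w.testBit i) (w.testBit 36)) (sgnT.testBit i)).toNat := by
    apply Nat.eq_of_testBit_eq
    intro j
    change ((((w >>> i) ^^^ (w >>> 36)) ^^^ (sgnT >>> i)) &&& 1).testBit j = _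
    rw [Nat.testBit_and]
    cases j with
    | zero =>
      rw [Nat.testBit_xor, Nat.testBit_xor, Nat.testBit_shiftRight, Nat.testBit_shiftRight,
        Nat.testBit_shiftRight]
      change ((xor (xor (w.testBit i) (w.testBit 36)) (sgnT.testBit i)) && true) = _
      cases w.testBit i <;> cases w.testBit 36 <;> cases sgnT.testBit i <;> rfl
    | succ j =>
      have e1 : (1 : ℕ).testBit (j + 1) = false := by
        rw [Nat.testBit_succ]; simp
      rw [e1, Bool.and_false]
      cases (xor (xor (w.testBit i) (w.testBit 36)) (sgnT.testBit i))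
      · exact (Nat.zero_testBit _).symm
      · exact e1.symm
  rw [h1, h2, hp, bit_and_one, uLit, e6]
  rcases hm : m.testBit i with _ | _
  · rw [if_neg (by decide)]
    exact Nat.zero_shiftLeft _
  · rw [if_pos rfl, fl, uv, e6]
    have hb : xor (xor (w.testBit i) (w.testBit 36)) (sgnT.testBit i) =
        xor (xor (ipm (mS (i / 6)) (i % 6)) (ipm (mS (i / 6)) (6 + i / 6)))
          (xor (w.testBit 36) (!(w.testBit i))) := by
      rw [hs]
      cases w.testBit i <;> cases w.testBit 36 <;> cases ipm (mS (i / 6)) (i % 6) <;>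
        cases ipm (mS (i / 6)) (6 + i / 6) <;> rfl
    rw [hb]
    cases xor (xor (ipm (mS (i / 6)) (i % 6)) (ipm (mS (i / 6)) (6 + i / 6)))
          (xor (w.testBit 36) (!(w.testBit i)))
    · rw [if_neg (by decide)]
      change 1 <<< ((mS (i / 6) ||| 2 ^ (i % 6)) + 4096 * 0) = _
      rw [Nat.mul_zero, Nat.add_zero, Nat.one_shiftLeft]
    · rw [if_pos rfl]
      change 1 <<< ((mS (i / 6) ||| 2 ^ (i % 6)) + 4096 * 1) = _
      rw [Nat.mul_one, Nat.one_shiftLeft, Nat.add_comm]

theorem uD_eq (w : ℕ) : uD w = fl 4032 (w.testBit 36) := by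
  have h1 : uD w = Nat.shiftLeft 1 (Nat.add 4032 (Nat.mul 4096
    (Nat.land (Nat.shiftRight w 36) 1))) := rfl
  rw [h1, bit_and_one, fl]
  cases w.testBit 36
  · rw [if_neg (by decide)]
    change 1 <<< (4032 + 4096 * 0) = _
    rw [Nat.one_shiftLeft]
  · rw [if_pos rfl]
    change 1 <<< (4032 + 4096 * 1) = _
    rw [Nat.one_shiftLeft]

/-- The false literals of a pattern. -/
theorem fa_uU {C m w : ℕ} (hC : Fa χ T C) (hd : χ 4032 = w.testBit 36)
    (hs : ∀ k j : Fin 6, m.testBit (6 * k + j) = true → sigma χ k j = w.testBit (6 * k + j)) :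
    Fa χ T (uU C m w) := by
  have hu : ∀ k j : Fin 6, Fa χ T (uLit m w k j) := by
    intro k j
    unfold uLit
    by_cases h : m.testBit (6 * (k : ℕ) + j) = true
    · rw [if_pos h]
      refine fa_fl ((mS_or k).2 j) ?_
      have h1 := hs k j h
      rw [sigma, csm, csm, (mS_or k).1, hd] at h1
      rw [uv, ← h1]
      cases χ (mS ↑k ||| 2 ^ (j : ℕ)) <;> cases ipm (mS ↑k) ↑j <;> cases w.testBit 36 <;>
        cases ipm (mS ↑k) (6 + ↑k) <;> rfl
    · rw [if_neg h]
      exact Fa_zero
  have hf : ∀ n ≤ 36, Fa χ T (@Nat.rec (fun _ => Nat) (Nat.lor C (uD w))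
      (fun i ih => Nat.lor ih (uL m w i)) n : ℕ) := by
    intro n
    induction n with
    | zero =>
      intro _
      refine Fa_or hC ?_
      rw [uD_eq]
      exact fa_fl (by norm_num) hd
    | succ n ih =>
      intro hn
      refine Fa_or (ih (by omega)) ?_
      rw [uL_eq (by omega)]
      exact hu ⟨n / 6, by omega⟩ ⟨n % 6, Nat.mod_lt _ (by norm_num)⟩
  exact hf 36 le_rfl

theorem Lo_pow {i : ℕ} (h : i < 16384) : Lo (2 ^ i) := by
  intro j hj
  rw [Nat.testBit_two_pow, decide_eq_true_iff] at hj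
  omega

theorem Lo_zero : Lo 0 := fun i hi => by simp at hi

theorem Lo_fl {i : ℕ} {b : Bool} (h : i < 4096) : Lo (fl i b) := by
  unfold fl
  split
  · exact Lo_pow (by omega)
  · exact Lo_pow (by omega)

theorem Lo_uU {C m w : ℕ} (hC : Lo C) : Lo (uU C m w) := by
  have hf : ∀ n ≤ 36, Lo (@Nat.rec (fun _ => Nat) (Nat.lor C (uD w))
      (fun i ih => Nat.lor ih (uL m w i)) n : ℕ) := by
    intro n
    induction n with
    | zero =>
      intro _
      refine Lo_or hC ?_
      rw [uD_eq]
      exact Lo_fl (by norm_num)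
    | succ n ih =>
      intro hn
      refine Lo_or (ih (by omega)) ?_
      rw [uL_eq (by omega)]
      unfold uLit
      split
      · exact Lo_fl ((mS_or ⟨n / 6, by omega⟩).2 ⟨n % 6, Nat.mod_lt _ (by norm_num)⟩)
      · exact Lo_zero
  exact hf 36 le_rfl

/-- **A piece.** -/
theorem piece1_sound {R Y LM LR : ℕ → ℕ} {C m w a b : ℕ} {E : List (ℕ × Bool)} {X : ℕ}
    (hEV : ∀ χ T : ℕ → Bool, RModel χ T → Simp χ 63 4095 →
      EV χ T (fun j => Cl χ T (LM j)) R Y) (hLM : ∀ j, Lo (LM j))
    (hE : (E.all fun p => decide (p.1 < 4096)) = true)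
    (hC : 2 ^ (4096 + 63) ||| chartU ||| mkE E = C) (hl : C < 2 ^ 16384)
    (h : piece1 R Y LM LR C m w a b = true) : RRefX m w E X 0 := by
  obtain ⟨h1, h⟩ := bnd_true h
  obtain ⟨h2, h⟩ := bnd_true h
  obtain ⟨h3, h⟩ := bnd_true h
  obtain ⟨h4, h⟩ := bnd_true h
  have hb : b ≤ 16384 := Nat.le_of_ble_eq_true h2
  have hab : a + 1 ≤ b := Nat.le_of_ble_eq_true h3
  have hm : m.testBit 36 = true := by
    have h5 := Nat.eq_of_beq_eq_true h1
    rw [bit_and_one] at h5
    revert h5
    cases m.testBit 36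
    · intro h5; exact absurd h5 (by decide)
    · intro _; rfl
  intro χ T hM h63 hS hs hE' _
  have hCF : Fa χ T C := by
    rw [← hC]
    refine Fa_or (Fa_or (fa_63 h63) (fa_chartU h63 hS)) (fa_mkE ?_ hE')
    intro p hp
    exact of_decide_eq_true (List.all_eq_true.1 hE p hp)
  have hlo : Lo C := by
    intro i hi
    by_contra hc
    have : C.testBit i = false := Nat.testBit_lt_two_pow (lt_of_lt_of_le hl
      (Nat.pow_le_pow_right (by norm_num) (by omega)))
    rw [this] at hi
    exact Bool.noConfusion hi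
  have hcl := outerA_sound (hEV χ T hM hS) hLM a (b - a) (by omega) _
    (FA_of_Fa (fa_uU hCF (hs.2 hm) hs.1) (Lo_uU hlo)) h 0 (by omega)
  rw [Nat.add_zero, Nat.eq_of_beq_eq_true h4] at hcl
  exact Cl_zero hcl

/-- **All pieces of a block.** -/
theorem multi_sound {R Y LM LR : ℕ → ℕ} {C G A n : ℕ} {E : List (ℕ × Bool)} {X : ℕ}
    (hEV : ∀ χ T : ℕ → Bool, RModel χ T → Simp χ 63 4095 →
      EV χ T (fun j => Cl χ T (LM j)) R Y) (hLM : ∀ j, Lo (LM j))
    (hE : (E.all fun p => decide (p.1 < 4096)) = true)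
    (hC : 2 ^ (4096 + 63) ||| chartU ||| mkE E = C) (hl : C < 2 ^ 16384)
    (h : multi R Y LM LR C G A n = true) : ∀ i < n, RRefX (ngM G i) (ngV G i) E X 0 := by
  induction n with
  | zero => intro i hi; exact absurd hi (Nat.not_lt_zero i)
  | succ n ih =>
    obtain ⟨h1, h2⟩ := bnd_true h
    intro i hi
    rcases Nat.lt_or_ge i n with h3 | h3
    · exact ih h2 i h3
    · have : i = n := by omega
      rw [this]
      exact piece1_sound hEV hLM hE hC hl h1

/-- The mask of the constant literals. -/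
theorem cu_ok : 2 ^ (4096 + 63) ||| chartU ||| mkE E29 = CU := by decide +kernel

theorem e29_ok : (E29.all fun p => decide (p.1 < 4096)) = true := by decide +kernel

theorem cu_lt : CU < 2 ^ 16384 := Nat.lt_of_lt_of_le (m := 2 ^ 8192)
  (Nat.le_of_ble_eq_true (by decide +kernel)) (Nat.pow_le_pow_right (by norm_num) (by norm_num))

/-- **All pieces of a block**, sorted frame. -/
theorem multi29 {R Y LM LR : ℕ → ℕ} {P Q n : ℕ}
    (hEV : ∀ χ T : ℕ → Bool, RModel χ T → Simp χ 63 4095 →
      EV χ T (fun j => Cl χ T (LM j)) R Y) (hLM : ∀ j, Lo (LM j))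
    (h : multi R Y LM LR CU P Q n = true) : ∀ i < n, RRefX (ngM P i) (ngV P i) E29 0 0 :=
  multi_sound hEV hLM e29_ok cu_ok cu_lt h

end Pool.Agent.H32.Z12
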