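import Mathlib
import Pool.Agent.H32.Z12.M
import Pool.Agent.H32.Z12.M2Defs
import Pool.Agent.H28.Z12.SFr

/-!
Blocks of small refutations in the frame of the largest cross ratio and without further signs
(MP_1e71f9_co).
-/

set_option autoImplicit false

namespace Pool.Agent.H32.Z12

open Pool.Agent.H77.Z12 Pool.Agent.H64.Z12 Pool.Agent.H13.Z12 Pool.Agent.H13.Z12.B2 Pool.Agent.H28.Z12
  Pool.Agent.H28.Z12.Cov

theorem cu17_ok : 2 ^ (4096 + 63) ||| chartU ||| mkE E17 = CU17 := by decide +kernel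

theorem e17_ok : (E17.all fun p => decide (p.1 < 4096)) = true := by decide +kernel

theorem cu17_lt : CU17 < 2 ^ 16384 := Nat.lt_of_lt_of_le (m := 2 ^ 8192)
  (Nat.le_of_ble_eq_true (by decide +kernel)) (Nat.pow_le_pow_right (by norm_num) (by norm_num))

theorem cu0_ok : 2 ^ (4096 + 63) ||| chartU ||| mkE [] = CU0 := by decide +kernel

theorem cu0_lt : CU0 < 2 ^ 16384 := Nat.lt_of_lt_of_le (m := 2 ^ 8192)
  (Nat.le_of_ble_eq_true (by decide +kernel)) (Nat.pow_le_pow_right (by norm_num) (by norm_num))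

/-- **All pieces of a block**, frame of the largest cross ratio. -/
theorem multi17 {R Y LM LR : ℕ → ℕ} {P Q n : ℕ}
    (hEV : ∀ χ T : ℕ → Bool, RModel χ T → Simp χ 63 4095 →
      EV χ T (fun j => Cl χ T (LM j)) R Y) (hLM : ∀ j, Lo (LM j))
    (h : multi R Y LM LR CU17 P Q n = true) : ∀ i < n, RRefX (ngM P i) (ngV P i) E17 0 0 :=
  multi_sound hEV hLM e17_ok cu17_ok cu17_lt h

/-- **All pieces of a block**, no further signs. -/
theorem multi0 {R Y LM LR : ℕ → ℕ} {P Q n : ℕ}
    (hEV : ∀ χ T : ℕ → Bool, RModel χ T → Simp χ 63 4095 →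
      EV χ T (fun j => Cl χ T (LM j)) R Y) (hLM : ∀ j, Lo (LM j))
    (h : multi R Y LM LR CU0 P Q n = true) : ∀ i < n, RRefX (ngM P i) (ngV P i) [] 0 0 :=
  multi_sound hEV hLM (by decide) cu0_ok cu0_lt h

theorem sub29_E29 : sub29 E29 = true := by decide +kernel

theorem sub17_E17 : sub17 E17 = true := by decide +kernel

end Pool.Agent.H32.Z12
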