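import Mathlib
import Pool.Agent.H32.Z12.M2
import Pool.Agent.H32.Z12.MGDefs
import Pool.Agent.H28.Z12.CondX
import Pool.Agent.H28.Z12.ZTree

/-!
Soundness of the general checker for many small refutations (MP_1e71f9_co).
-/

set_option autoImplicit false

namespace Pool.Agent.H32.Z12

open Pool.Agent.H77.Z12 Pool.Agent.H64.Z12 Pool.Agent.H13.Z12 Pool.Agent.H13.Z12.B2 Pool.Agent.H28.Z12
  Pool.Agent.H28.Z12.Cov

/-- **All pieces of a block**, for models with the property `H`. -/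
theorem multiF_sound {H : (ℕ → Bool) → (ℕ → Bool) → Prop} {R Y LM LR F : ℕ → ℕ} {Q n : ℕ}
    (hEV : ∀ χ T : ℕ → Bool, H χ T → EV χ T (fun j => Cl χ T (LM j)) R Y) (hLM : ∀ j, Lo (LM j))
    (h : multiF R Y LM LR F Q n = true) : ∀ i < n, ∀ χ T : ℕ → Bool, H χ T →
      Fa χ T (F i) → Lo (F i) → False := by
  induction n with
  | zero => intro i hi; exact absurd hi (Nat.not_lt_zero i)
  | succ n ih =>
    obtain ⟨h1, h2⟩ := bnd_true h
    intro i hi
    rcases Nat.lt_or_ge i n with h3 | h3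
    · exact ih h2 i h3
    · have e : i = n := by omega
      rw [e]
      intro χ T hM hF hlo
      have h1' : pieceF R Y LM LR (F n) (aT Q n) (aT Q (Nat.succ n)) = true := h1
      obtain ⟨h4, h5⟩ := bnd_true h1'
      obtain ⟨h6, h7⟩ := bnd_true h5
      obtain ⟨h8, h9⟩ := bnd_true h7
      have hb : aT Q (Nat.succ n) ≤ 16384 := Nat.le_of_ble_eq_true h4
      have hab : aT Q n + 1 ≤ aT Q (Nat.succ n) := Nat.le_of_ble_eq_true h6
      have hcl := outerA_sound (hEV χ T hM) hLM (aT Q n) (aT Q (Nat.succ n) - aT Q n) (by omega) _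
        (FA_of_Fa hF hlo) h9 0 (by omega)
      rw [Nat.add_zero, Nat.eq_of_beq_eq_true h8] at hcl
      exact Cl_zero hcl

theorem Lo_lt {C : ℕ} (hl : C < 2 ^ 16384) : Lo C := by
  intro i hi
  by_contra hc
  have : C.testBit i = false := Nat.testBit_lt_two_pow (lt_of_lt_of_le hl
    (Nat.pow_le_pow_right (by norm_num) (by omega)))
  rw [this] at hi
  exact Bool.noConfusion hi

theorem fa_cu {χ T : ℕ → Bool} {C : ℕ} {E : List (ℕ × Bool)}
    (hE : (E.all fun p => decide (p.1 < 4096)) = true)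
    (hC : 2 ^ (4096 + 63) ||| chartU ||| mkE E = C) (h63 : χ 63 = true) (hS : Simp χ 63 4095)
    (hE' : ∀ p ∈ E, χ p.1 = p.2) : Fa χ T C := by
  rw [← hC]
  refine Fa_or (Fa_or (fa_63 h63) (fa_chartU h63 hS)) (fa_mkE ?_ hE')
  intro p hp
  exact of_decide_eq_true (List.all_eq_true.1 hE p hp)

theorem det36_sound {P n : ℕ} (h : det36 P n = true) : ∀ i < n, (ngM P i).testBit 36 = true := by
  induction n with
  | zero => intro i hi; exact absurd hi (Nat.not_lt_zero i)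
  | succ n ih =>
    obtain ⟨h1, h2⟩ := bnd_true h
    intro i hi
    rcases Nat.lt_or_ge i n with h3 | h3
    · exact ih h2 i h3
    · have e : i = n := by omega
      rw [e]
      have h5 := Nat.eq_of_beq_eq_true h1
      rw [bit_and_one] at h5
      revert h5
      cases (ngM P n).testBit 36
      · intro h5; exact absurd h5 (by decide)
      · intro _; rfl

/-- **Patterns**, for a class of models. -/
theorem multiP_sound {H : (ℕ → Bool) → (ℕ → Bool) → Prop} {R Y LM LR : ℕ → ℕ} {C P Q n : ℕ}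
    {E : List (ℕ × Bool)}
    (hEV : ∀ χ T : ℕ → Bool, H χ T → Simp χ 63 4095 →
      EV χ T (fun j => Cl χ T (LM j)) R Y) (hLM : ∀ j, Lo (LM j))
    (hE : (E.all fun p => decide (p.1 < 4096)) = true)
    (hC : 2 ^ (4096 + 63) ||| chartU ||| mkE E = C) (hl : C < 2 ^ 16384)
    (hd : det36 P n = true) (h : multiF R Y LM LR (fP C P) Q n = true) :
    ∀ i < n, ∀ χ T : ℕ → Bool, H χ T → χ 63 = true → Simp χ 63 4095 →
      SatC χ (ngM P i) (ngV P i) → (∀ p ∈ E, χ p.1 = p.2) → False := by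
  intro i hi χ T hM h63 hS hs hE'
  exact multiF_sound (H := fun χ T => H χ T ∧ Simp χ 63 4095) (fun χ T h => hEV χ T h.1 h.2) hLM h
    i hi χ T ⟨hM, hS⟩ (fa_uU (fa_cu hE hC h63 hS hE') (hs.2 (det36_sound hd i hi)) hs.1)
    (Lo_uU (Lo_lt hl))

/-- Unrelaxed models. -/
theorem multiP_refX {R Y LM LR : ℕ → ℕ} {C P Q n X : ℕ} {E : List (ℕ × Bool)}
    (hEV : ∀ χ T : ℕ → Bool, Model χ T → Simp χ 63 4095 →
      EV χ T (fun j => Cl χ T (LM j)) R Y) (hLM : ∀ j, Lo (LM j))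
    (hE : (E.all fun p => decide (p.1 < 4096)) = true)
    (hC : 2 ^ (4096 + 63) ||| chartU ||| mkE E = C) (hl : C < 2 ^ 16384)
    (hd : det36 P n = true) (h : multiF R Y LM LR (fP C P) Q n = true) :
    ∀ i < n, RefX (ngM P i) (ngV P i) E X 0 :=
  fun i hi χ T hM h63 hS hs hE' _ => multiP_sound hEV hLM hE hC hl hd h i hi χ T hM h63 hS hs hE'

/-- Models with the parameter `D`. -/
theorem multiP_xrefX {R Y LM LR : ℕ → ℕ} {D C P Q n X : ℕ} {E : List (ℕ × Bool)}
    (hEV : ∀ χ T : ℕ → Bool, Pool.Agent.H28.Z12.X.XModel D χ T → Simp χ 63 4095 →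
      EV χ T (fun j => Cl χ T (LM j)) R Y) (hLM : ∀ j, Lo (LM j))
    (hE : (E.all fun p => decide (p.1 < 4096)) = true)
    (hC : 2 ^ (4096 + 63) ||| chartU ||| mkE E = C) (hl : C < 2 ^ 16384)
    (hd : det36 P n = true) (h : multiF R Y LM LR (fP C P) Q n = true) :
    ∀ i < n, XRefX D (ngM P i) (ngV P i) E X 0 :=
  fun i hi χ T hM h63 hS hs hE' _ => multiP_sound hEV hLM hE hC hl hd h i hi χ T hM h63 hS hs hE'

/-! ### Further signs -/

theorem zLit_eq {Z zm zw i : ℕ} : zLit Z zm zw i =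
    if zm.testBit i = true then fl (zv Z i) (zw.testBit i) else 0 := by
  have h1 : zLit Z zm zw i = Nat.shiftLeft (Nat.land (Nat.shiftRight zm i) 1)
    (Nat.add (zv Z i) (Nat.mul 4096 (Nat.land (Nat.shiftRight zw i) 1))) := rfl
  rw [h1, bit_and_one, bit_and_one]
  cases zm.testBit i
  · rw [if_neg (by decide)]
    exact Nat.zero_shiftLeft _
  · rw [if_pos rfl, fl]
    cases zw.testBit i
    · rw [if_neg (by decide)]
      change 1 <<< (zv Z i + 4096 * 0) = _
      rw [Nat.mul_zero, Nat.add_zero, Nat.one_shiftLeft]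
    · rw [if_pos rfl]
      change 1 <<< (zv Z i + 4096 * 1) = _
      rw [Nat.mul_one, Nat.one_shiftLeft, Nat.add_comm]

theorem zv_lt (Z i : ℕ) : zv Z i < 4096 :=
  lt_of_le_of_lt (Nat.and_le_right (n := Nat.shiftRight Z (Nat.mul 12 i)) (m := 4095)) (by norm_num)

theorem fa_uZ {χ T : ℕ → Bool} {C Z zm zw : ℕ} (hC : Fa χ T C)
    (hz : ∀ i < 37, zm.testBit i = true → χ (zv Z i) = zw.testBit i) : Fa χ T (uZ C Z zm zw) := by
  have hf : ∀ n ≤ 37, Fa χ T (@Nat.rec (fun _ => Nat) C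
      (fun i ih => Nat.lor ih (zLit Z zm zw i)) n : ℕ) := by
    intro n
    induction n with
    | zero => intro _; exact hC
    | succ n ih =>
      intro hn
      refine Fa_or (ih (by omega)) ?_
      rw [zLit_eq]
      split
      · rename_i h1
        exact fa_fl (zv_lt Z n) (hz n (by omega) h1)
      · exact Fa_zero
  exact hf 37 le_rfl

theorem Lo_uZ {C Z zm zw : ℕ} (hC : Lo C) : Lo (uZ C Z zm zw) := by
  have hf : ∀ n ≤ 37, Lo (@Nat.rec (fun _ => Nat) C
      (fun i ih => Nat.lor ih (zLit Z zm zw i)) n : ℕ) := by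
    intro n
    induction n with
    | zero => intro _; exact hC
    | succ n ih =>
      intro hn
      refine Lo_or (ih (by omega)) ?_
      rw [zLit_eq]
      split
      · exact Lo_fl (zv_lt Z n)
      · exact Lo_zero
  exact hf 37 le_rfl

/-- **Patterns with a mask of the signs of the frame for each piece**, for a class of models. -/
theorem multiE_sound {H : (ℕ → Bool) → (ℕ → Bool) → Prop} {R Y LM LR : ℕ → ℕ} {P EM Q n : ℕ}
    (hEV : ∀ χ T : ℕ → Bool, H χ T → Simp χ 63 4095 →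
      EV χ T (fun j => Cl χ T (LM j)) R Y) (hLM : ∀ j, Lo (LM j))
    (hd : det36 P n = true) (h : multiF R Y LM LR (fE CU0 P EM) Q n = true) :
    ∀ i < n, ∀ χ T : ℕ → Bool, H χ T → χ 63 = true → Simp χ 63 4095 →
      SatC χ (ngM P i) (ngV P i) → (∀ p ∈ zL Z29 (eT EM i) V29, χ p.1 = p.2) → False := by
  intro i hi χ T hM h63 hS hs hE'
  have hC : Fa χ T CU0 := fa_cu (E := []) (by decide) cu0_ok h63 hS
    fun p hp => absurd hp List.not_mem_nil
  have hZ : Fa χ T (uZ CU0 Z29 (eT EM i) V29) := fa_uZ hC fun j hj hz =>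
    hE' (zv Z29 j, V29.testBit j) (List.mem_map.2 ⟨j, List.mem_filter.2 ⟨List.mem_range.2 hj, hz⟩, rfl⟩)
  exact multiF_sound (H := fun χ T => H χ T ∧ Simp χ 63 4095) (fun χ T h => hEV χ T h.1 h.2) hLM h
    i hi χ T ⟨hM, hS⟩ (fa_uU hZ (hs.2 (det36_sound hd i hi)) hs.1) (Lo_uU (Lo_uZ (Lo_lt cu0_lt)))

/-- Relaxed models, own mask of signs. -/
theorem multiE_rrefX {R Y LM LR : ℕ → ℕ} {P EM Q n X : ℕ}
    (hEV : ∀ χ T : ℕ → Bool, RModel χ T → Simp χ 63 4095 →
      EV χ T (fun j => Cl χ T (LM j)) R Y) (hLM : ∀ j, Lo (LM j))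
    (hd : det36 P n = true) (h : multiF R Y LM LR (fE CU0 P EM) Q n = true) :
    ∀ i < n, RRefX (ngM P i) (ngV P i) (zL Z29 (eT EM i) V29) X 0 :=
  fun i hi χ T hM h63 hS hs hE' _ => multiE_sound hEV hLM hd h i hi χ T hM h63 hS hs hE'

/-- Unrelaxed models, own mask of signs. -/
theorem multiE_refX {R Y LM LR : ℕ → ℕ} {P EM Q n X : ℕ}
    (hEV : ∀ χ T : ℕ → Bool, Model χ T → Simp χ 63 4095 →
      EV χ T (fun j => Cl χ T (LM j)) R Y) (hLM : ∀ j, Lo (LM j))
    (hd : det36 P n = true) (h : multiF R Y LM LR (fE CU0 P EM) Q n = true) :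
    ∀ i < n, RefX (ngM P i) (ngV P i) (zL Z29 (eT EM i) V29) X 0 :=
  fun i hi χ T hM h63 hS hs hE' _ => multiE_sound hEV hLM hd h i hi χ T hM h63 hS hs hE'

/-- Models with the parameter `D`, own mask of signs. -/
theorem multiE_xrefX {R Y LM LR : ℕ → ℕ} {D P EM Q n X : ℕ}
    (hEV : ∀ χ T : ℕ → Bool, Pool.Agent.H28.Z12.X.XModel D χ T → Simp χ 63 4095 →
      EV χ T (fun j => Cl χ T (LM j)) R Y) (hLM : ∀ j, Lo (LM j))
    (hd : det36 P n = true) (h : multiF R Y LM LR (fE CU0 P EM) Q n = true) :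
    ∀ i < n, XRefX D (ngM P i) (ngV P i) (zL Z29 (eT EM i) V29) X 0 :=
  fun i hi χ T hM h63 hS hs hE' _ => multiE_sound hEV hLM hd h i hi χ T hM h63 hS hs hE'

/-- The list of all signs of the frame. -/
theorem zL29 : zL Z29 536870911 V29 = E29 := by decide +kernel

/-- **Further signs**, for a class of models. -/
theorem multiZ_sound {H : (ℕ → Bool) → (ℕ → Bool) → Prop} {R Y LM LR : ℕ → ℕ}
    {m w K C Z P Q n : ℕ} {E : List (ℕ × Bool)}
    (hEV : ∀ χ T : ℕ → Bool, H χ T → Simp χ 63 4095 →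
      EV χ T (fun j => Cl χ T (LM j)) R Y) (hLM : ∀ j, Lo (LM j))
    (hE : (E.all fun p => decide (p.1 < 4096)) = true)
    (hK : 2 ^ (4096 + 63) ||| chartU ||| mkE E = K) (hl : K < 2 ^ 16384)
    (hm : m.testBit 36 = true) (hC : uU K m w = C)
    (h : multiF R Y LM LR (fZ C Z P) Q n = true) :
    ∀ i < n, ∀ χ T : ℕ → Bool, H χ T → χ 63 = true → Simp χ 63 4095 → SatC χ m w →
      (∀ p ∈ zL Z (ngM P i) (ngV P i) ++ E, χ p.1 = p.2) → False := by
  intro i hi χ T hM h63 hS hs hE'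
  have hCF : Fa χ T C := by
    rw [← hC]
    exact fa_uU (fa_cu hE hK h63 hS fun p hp => hE' p (List.mem_append_right _ hp)) (hs.2 hm) hs.1
  have hCL : Lo C := by
    rw [← hC]
    exact Lo_uU (Lo_lt hl)
  refine multiF_sound (H := fun χ T => H χ T ∧ Simp χ 63 4095) (fun χ T h => hEV χ T h.1 h.2) hLM h
    i hi χ T ⟨hM, hS⟩ (fa_uZ hCF ?_) (Lo_uZ hCL)
  intro j hj hz
  refine hE' (zv Z j, (ngV P i).testBit j) (List.mem_append_left _ ?_)
  exact List.mem_map.2 ⟨j, List.mem_filter.2 ⟨List.mem_range.2 hj, hz⟩, rfl⟩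

/-- Further signs, relaxed models. -/
theorem multiZ_rrefX {R Y LM LR : ℕ → ℕ} {m w K C Z P Q n X : ℕ} {E : List (ℕ × Bool)}
    (hEV : ∀ χ T : ℕ → Bool, RModel χ T → Simp χ 63 4095 →
      EV χ T (fun j => Cl χ T (LM j)) R Y) (hLM : ∀ j, Lo (LM j))
    (hE : (E.all fun p => decide (p.1 < 4096)) = true)
    (hK : 2 ^ (4096 + 63) ||| chartU ||| mkE E = K) (hl : K < 2 ^ 16384)
    (hm : m.testBit 36 = true) (hC : uU K m w = C)
    (h : multiF R Y LM LR (fZ C Z P) Q n = true) :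
    ∀ i < n, RRefX m w (zL Z (ngM P i) (ngV P i) ++ E) X 0 :=
  fun i hi χ T hM h63 hS hs hE' _ =>
    multiZ_sound hEV hLM hE hK hl hm hC h i hi χ T hM h63 hS hs hE'

/-- Further signs, models with the parameter `D`. -/
theorem multiZ_xrefX {R Y LM LR : ℕ → ℕ} {D m w K C Z P Q n X : ℕ} {E : List (ℕ × Bool)}
    (hEV : ∀ χ T : ℕ → Bool, Pool.Agent.H28.Z12.X.XModel D χ T → Simp χ 63 4095 →
      EV χ T (fun j => Cl χ T (LM j)) R Y) (hLM : ∀ j, Lo (LM j))
    (hE : (E.all fun p => decide (p.1 < 4096)) = true)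
    (hK : 2 ^ (4096 + 63) ||| chartU ||| mkE E = K) (hl : K < 2 ^ 16384)
    (hm : m.testBit 36 = true) (hC : uU K m w = C)
    (h : multiF R Y LM LR (fZ C Z P) Q n = true) :
    ∀ i < n, XRefX D m w (zL Z (ngM P i) (ngV P i) ++ E) X 0 :=
  fun i hi χ T hM h63 hS hs hE' _ =>
    multiZ_sound hEV hLM hE hK hl hm hC h i hi χ T hM h63 hS hs hE'

/-- The base clauses in unrelaxed models and in models with the parameter `D`. -/
theorem ok_genX {D : ℕ} {χ T : ℕ → Bool} (hM : Pool.Agent.H28.Z12.X.XModel D χ T) (h : Simp χ 63 4095) :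
    Ok χ T (genX D (nat_lit 16773183) (nat_lit 0)) :=
  ⟨genX_one hM h, fun _ _ _ hQ hp => cl_of_sat (Pool.Agent.H28.Z12.X.genGP_sat hM hQ hp),
    fun _ _ ht => cl_of_sat (Pool.Agent.H28.Z12.X.genCC_sat hM ht)⟩

end Pool.Agent.H32.Z12
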